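import Pool.Agent.K4H28.RS.Fin

/-!
# Q1 and Q2 for linear systems with large Euler characteristic

Let `X` be the blow-up of the plane at `n` general points (over an algebraically closed field of
characteristic zero), `D = d H - ∑ w i E i` ANY class with `w i ≥ 0` (no restriction on `n`, on `d` or
on the multiplicities), and `χ (D) = binom (d + 2) 2 - ∑ binom (w i + 1) 2`.

1. Let `E = E j`, and let `a ≥ b` be the two largest among the multiplicities of `D - E j` (these are
   the numbers `w i`, `i ≠ j`, and `w j + 1`). If `χ (D) ≥ (a - 1) (b - 1) + D · E + 1`, then the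
   restriction map `ρ : H⁰ (D) → H⁰ (O_E (D · E))` is surjective. In particular it has maximal rank
   (Q2), and its image has no base point (Q1). If `D - E j` is standard (the sum of any three of its
   multiplicities is at most `d`), then it suffices that `a` is the largest and `b` the tenth largest
   of them.
2. Let `(e; c)` be the class of any `(-1)`-curve `E`, with `e ≤ d`, `c i ≤ w i` and `D · E ≥ -1`. If
   `χ (D) ≥ (a - 1) (b - 1) + D · E + 1`, where `a ≥ b` are the two largest among the `w i`, then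
   `h⁰ (D) = h⁰ (D - E) + D · E + 1`, which means that `ρ` is surjective. If `D` and `D - E` are
   standard, then it suffices that `b` is the tenth largest one.
3. The bound in part 1 is optimal for all `a ≥ b ≥ 2`: for `D = (a + b - 2) H - (a - 1) E 0 - b E 1` and
   `E = E 0` one has `χ (D) = (a - 1) (b - 1) + D · E` and `ρ` does not have maximal rank.

The proof uses the bound for the dimension of special systems from the hand-in `SharpSpecialBound`
of `MP_d3128a_ag`.
-/

set_option autoImplicit false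

namespace Pool.Agent.Results.MP_5bb273_ag.LargeSystems

open MvPolynomial

/-- `H⁰ (d H - ∑ w i E i)`: the forms of degree `d` vanishing to order at least `w i` at the points
`(P i 0 : P i 1 : 1)`. -/
noncomputable def sections {k : Type} [Field k] {n : ℕ} (P : Fin n → Fin 2 → k) (d : ℕ)
    (w : Fin n → ℕ) : Submodule k (MvPolynomial (Fin 3) k) :=
  homogeneousSubmodule (Fin 3) k d ⊓
    Submodule.restrictScalars k
      (⨅ i : Fin n, (Ideal.span {X 0 - C (P i 0) * X 2, X 1 - C (P i 1) * X 2} :
        Ideal (MvPolynomial (Fin 3) k)) ^ (w i))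

/-- The local equation `F (a + x, b + y, 1)` of `F` at the point `p = (a : b : 1)`. -/
noncomputable def localEquation {k : Type} [Field k] (p : Fin 2 → k) :
    MvPolynomial (Fin 3) k →ₐ[k] MvPolynomial (Fin 2) k :=
  aeval ![X 0 + C (p 0), X 1 + C (p 1), 1]

/-- The restriction map `ρ` from `H⁰ (D)`, `D = d H - ∑ w i E i`, to the exceptional curve `E j`:
`D · E j = w j`, the sections of `O_E (D · E j)` are the binary forms of degree `w j`, and `ρ` sends
`F` to the term of degree `w j` of its local equation at `P j`. -/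
noncomputable def rho {k : Type} [Field k] {n : ℕ} (P : Fin n → Fin 2 → k) (d : ℕ) (w : Fin n → ℕ)
    (j : Fin n) : sections P d w →ₗ[k] homogeneousSubmodule (Fin 2) k (w j) :=
  LinearMap.codRestrict _
    ((homogeneousComponent (w j)) ∘ₗ (localEquation (P j)).toLinearMap ∘ₗ (sections P d w).subtype)
    fun _ => homogeneousComponent_mem _ _

/-- The image of `ρ` has no base point on `E j`. -/
def NoBasePoint {k : Type} [Field k] {n : ℕ} (P : Fin n → Fin 2 → k) (d : ℕ) (w : Fin n → ℕ)
    (j : Fin n) : Prop :=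
  ∀ v : Fin 2 → k, v ≠ 0 → ∃ F : sections P d w, eval v (rho P d w j F : MvPolynomial (Fin 2) k) ≠ 0

/-- The property holds for all `n`-tuples of points outside some hypersurface. -/
def Generally {k : Type} [Field k] {n : ℕ} (p : (Fin n → Fin 2 → k) → Prop) : Prop :=
  ∃ G : MvPolynomial (Fin n × Fin 2) k, G ≠ 0 ∧
    ∀ P : Fin n → Fin 2 → k, eval (fun ij : Fin n × Fin 2 => P ij.1 ij.2) G ≠ 0 → p P

/-- The Euler characteristic of `D = d H - ∑ w i E i`. -/
def chi {n : ℕ} (d : ℕ) (w : Fin n → ℕ) : ℤ :=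
  ((d + 2).choose 2 : ℤ) - ∑ i, ((w i + 1).choose 2 : ℤ)

/-- The multiplicities of `D - E j`. -/
def plus {n : ℕ} (w : Fin n → ℕ) (j : Fin n) : Fin n → ℕ := Function.update w j (w j + 1)

/-- `a ≥ b`, one of the numbers `u i` is at most `a` and all the others are at most `b`. (The smallest
possible `a` and `b` are the two largest ones of the numbers.) -/
def TwoLargest {n : ℕ} (u : Fin n → ℕ) (a b : ℕ) : Prop :=
  b ≤ a ∧ ∃ i₀, u i₀ ≤ a ∧ ∀ i, i ≠ i₀ → u i ≤ b

/-- `a ≥ b`, all the numbers `u i` are at most `a` and at most nine of them are larger than `b`. (The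
smallest possible `a` and `b` are the largest and the tenth largest one of the numbers.) -/
def TenthLargest {n : ℕ} (u : Fin n → ℕ) (a b : ℕ) : Prop :=
  b ≤ a ∧ (∀ i, u i ≤ a) ∧ (Finset.univ.filter fun i => b < u i).card ≤ 9

/-- The class `d H - ∑ u i E i` is standard: the sum of any at most three of the multiplicities is at
most `d`. -/
def Standard {n : ℕ} (d : ℕ) (u : Fin n → ℕ) : Prop :=
  ∀ S : Finset (Fin n), S.card ≤ 3 → ∑ i ∈ S, u i ≤ d

/-- The intersection number of `d H - ∑ w i E i` and `e H - ∑ c i E i`. -/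
def inter {n : ℕ} (d : ℕ) (w : Fin n → ℕ) (e : ℕ) (c : Fin n → ℕ) : ℤ :=
  (d : ℤ) * e - ∑ i, (w i : ℤ) * c i

open Pool.Agent.K4H28.SP (gd gd_spec gd_ge gd_upper9 gd_two Red3)
open Pool.Agent.K4H28.RS

section aux

variable {k : Type} [Field k] [CharZero k] {n : ℕ}

theorem gen_dim (d : ℕ) (w : Fin n → ℕ) : Generally fun P : Fin n → Fin 2 → k =>
    Module.finrank k (sections P d w) = gd w d := by
  obtain ⟨F, hF, h⟩ := gd_spec w d
  refine ⟨F.map (algebraMap ℚ k), fun h0 => hF ?_, fun P hP => ?_⟩
  · exact map_injective _ (algebraMap ℚ k).injective (h0.trans (map_zero _).symm)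
  · rw [eval_map] at hP
    exact h k P hP

omit [CharZero k] in
theorem Generally.both {p q r : (Fin n → Fin 2 → k) → Prop} (h1 : Generally p) (h2 : Generally q)
    (h : ∀ P, p P → q P → r P) : Generally r := by
  obtain ⟨F, hF, f⟩ := h1
  obtain ⟨G, hG, g⟩ := h2
  refine ⟨F * G, mul_ne_zero hF hG, fun P hP => ?_⟩
  rw [map_mul] at hP
  exact h P (f P (left_ne_zero_of_mul hP)) (g P (right_ne_zero_of_mul hP))

theorem red3 {d : ℕ} {u : Fin n → ℕ} (h : Standard d u) : Red3 d u := by
  classical
  refine ⟨fun i => ?_, fun i j hij => ?_, fun i j l hij hil hjl => ?_⟩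
  · have h1 := h {i} (by rw [Finset.card_singleton]; omega)
    rwa [Finset.sum_singleton] at h1
  · have h1 := h {i, j} (by rw [Finset.card_pair hij]; omega)
    rwa [Finset.sum_pair hij] at h1
  · have hi : i ∉ ({j, l} : Finset (Fin n)) := by
      rw [Finset.mem_insert, Finset.mem_singleton]
      rintro (h1 | h1)
      · exact hij h1
      · exact hil h1
    have h1 := h (insert i {j, l}) (by
      rw [Finset.card_insert_of_notMem hi, Finset.card_pair hjl])
    rw [Finset.sum_insert hi, Finset.sum_pair hjl] at h1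
    omega

theorem bd {d : ℕ} {u u' : Fin n → ℕ} {a b : ℕ} (hle : ∀ i, u i ≤ u' i)
    (h : TwoLargest u' a b ∨ (Standard d u ∧ TenthLargest u' a b)) :
    gd u d + ∑ i, (u i + 1).choose 2 = (d + 2).choose 2 ∨ gd u d ≤ (a - 1) * (b - 1) := by
  classical
  rcases h with ⟨hba, i₀, h1, h2⟩ | ⟨hst, hba, h1, h2⟩
  · exact gd_bd (i₀ := i₀) hba ((hle _).trans h1) fun i hi => (hle _).trans (h2 i hi)
  · refine gd_upper9 (red3 hst) (T := Finset.univ.filter fun i => b < u' i) h2
      (fun j _ => (hle _).trans (h1 j)) (fun j hj => ?_) hba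
    by_contra hcon
    exact hj (Finset.mem_filter.2 ⟨Finset.mem_univ _, by have := hle j; omega⟩)

theorem chi_nat {d : ℕ} {u : Fin n → ℕ} {N : ℕ} (h : (N : ℤ) ≤ chi d u) :
    N + ∑ i, (u i + 1).choose 2 ≤ (d + 2).choose 2 := by
  unfold chi at h
  have h1 : ((∑ i, (u i + 1).choose 2 : ℕ) : ℤ) = ∑ i, ((u i + 1).choose 2 : ℤ) := by push_cast; rfl
  omega

theorem chi_minus {d e : ℕ} {w c : Fin n → ℕ} (hed : e ≤ d) (hc : ∀ i, c i ≤ w i)
    (h1 : e ^ 2 + 1 = ∑ i, c i ^ 2) (h2 : 3 * e = ∑ i, c i + 1) :
    chi (d - e) (fun i => w i - c i) = chi d w - (inter d w e c + 1) := by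
  have hch : ∀ x : ℕ, 2 * ((x + 1).choose 2 : ℤ) = ((x : ℤ) + 1) * x := by
    intro x
    have h3 : 2 * (x + 1).choose 2 = (x + 1) * x := by
      rw [Nat.choose_two_right, Nat.add_sub_cancel]
      refine Nat.mul_div_cancel' ?_
      rw [mul_comm]
      exact (Nat.even_mul_succ_self x).two_dvd
    exact_mod_cast h3
  obtain ⟨f, rfl⟩ := Nat.exists_eq_add_of_le hed
  have e0 : e + f - e = f := by omega
  have s1 : 2 * ∑ i, ((w i + 1).choose 2 : ℤ) = ∑ i, ((w i : ℤ) + 1) * w i := by
    rw [Finset.mul_sum]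
    exact Finset.sum_congr rfl fun i _ => hch _
  have s2 : 2 * ∑ i, ((w i - c i + 1).choose 2 : ℤ) =
      ∑ i, (((w i : ℤ) + 1) * w i - (2 * ((w i : ℤ) * c i) - (c i : ℤ) ^ 2 + c i)) := by
    rw [Finset.mul_sum]
    refine Finset.sum_congr rfl fun i _ => ?_
    rw [hch, Nat.cast_sub (hc i)]
    ring
  rw [Finset.sum_sub_distrib, Finset.sum_add_distrib, Finset.sum_sub_distrib,
    ← Finset.mul_sum] at s2
  have t1 : ((e : ℤ) ^ 2 + 1) = ∑ i, (c i : ℤ) ^ 2 := by exact_mod_cast h1
  have t2 : (3 * (e : ℤ)) = ∑ i, (c i : ℤ) + 1 := by exact_mod_cast h2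
  have r1 := hch (e + f + 1)
  have r2 := hch (f + 1)
  unfold chi inter
  rw [e0]
  push_cast at r1 r2 ⊢
  have r1' : 2 * ((e + f + 2).choose 2 : ℤ) = ((e : ℤ) + f + 1 + 1) * (e + f + 1) := r1
  have r2' : 2 * ((f + 2).choose 2 : ℤ) = ((f : ℤ) + 1 + 1) * (f + 1) := r2
  nlinarith

end aux

/-- **Main result.** Part 1: the exceptional curves `E j`. Part 2: the other `(-1)`-curves. Part 3: the
bound in part 1 is optimal. -/
theorem result (k : Type) [Field k] [IsAlgClosed k] [CharZero k] :
    (∀ (n d : ℕ) (w : Fin n → ℕ) (j : Fin n) (a b : ℕ),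
      TwoLargest (plus w j) a b ∨ (Standard d (plus w j) ∧ TenthLargest (plus w j) a b) →
      ((((a - 1) * (b - 1) : ℕ) : ℤ) + (w j + 1) ≤ chi d w) →
      Generally fun P : Fin n → Fin 2 → k =>
        Function.Surjective (rho P d w j) ∧ NoBasePoint P d w j) ∧
    (∀ (n d e : ℕ) (w c : Fin n → ℕ) (a b : ℕ),
      TwoLargest w a b ∨
        (Standard d w ∧ Standard (d - e) (fun i => w i - c i) ∧ TenthLargest w a b) →
      e ≤ d → (∀ i, c i ≤ w i) → e ^ 2 + 1 = ∑ i, c i ^ 2 → 3 * e = ∑ i, c i + 1 →
      -1 ≤ inter d w e c → ((((a - 1) * (b - 1) : ℕ) : ℤ) + (inter d w e c + 1) ≤ chi d w) →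
      Generally fun P : Fin n → Fin 2 → k =>
        (Module.finrank k (sections P d w) : ℤ) =
          Module.finrank k (sections P (d - e) (fun i => w i - c i)) + (inter d w e c + 1)) ∧
    (∀ a b : ℕ, 2 ≤ b → b ≤ a →
      chi (a + b - 2) ![a - 1, b] = (((a - 1) * (b - 1) : ℕ) : ℤ) + (a - 1 : ℕ) ∧
      Generally fun P : Fin 2 → Fin 2 → k =>
        ¬ Function.Surjective (rho P (a + b - 2) ![a - 1, b] 0) ∧
          ¬ Function.Injective (rho P (a + b - 2) ![a - 1, b] 0)) := by
  classical
  refine ⟨fun n d w j a b hab hchi => ?_, fun n d e w c a b hab hed hc h1 h2 ht hchi => ?_,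
    fun a b hb hba => ?_⟩
  · have h1 := sum_up w j
    have h2 : (a - 1) * (b - 1) + ∑ i, (plus w j i + 1).choose 2 ≤ (d + 2).choose 2 := by
      have h3 := chi_nat (N := (a - 1) * (b - 1) + (w j + 1)) (d := d) (u := w) (by
        push_cast at hchi ⊢
        linarith)
      unfold plus
      rw [h1]
      omega
    have h3 := gd_exact (bd (fun i => le_rfl) hab) h2
    have h4 := gd_ge (m := w) (d := d)
    unfold plus at h3
    rw [h1] at h3
    refine (gen_dim (k := k) d w).both (gen_dim (k := k) d (Function.update w j (w j + 1)))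
      fun P hP hP' => ?_
    have h5 : Function.Surjective (rho P d w j) := by
      refine surj_of (P := P) (d := d) (w := w) (j := j) ?_
      change Module.finrank k (sections P d (Function.update w j (w j + 1))) + (w j + 1) ≤
        Module.finrank k (sections P d w)
      rw [hP, hP']
      omega
    exact ⟨h5, fun v hv => no_base (P := P) (d := d) (w := w) (j := j) h5 v hv⟩
  · have hm := chi_minus (d := d) hed hc h1 h2
    have g1 : gd w d + ∑ i, (w i + 1).choose 2 = (d + 2).choose 2 := by
      refine gd_exact (bd (u' := w) (fun i => le_rfl) ?_) (chi_nat (N := (a - 1) * (b - 1)) ?_)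
      · rcases hab with h | h
        · exact Or.inl h
        · exact Or.inr ⟨h.1, h.2.2⟩
      · linarith
    have g2 : gd (fun i => w i - c i) (d - e) + ∑ i, ((w i - c i) + 1).choose 2 =
        (d - e + 2).choose 2 := by
      refine gd_exact (bd (u := fun i => w i - c i) (u' := w) (fun i => Nat.sub_le _ _) ?_)
        (chi_nat (N := (a - 1) * (b - 1)) (u := fun i => w i - c i) ?_)
      · rcases hab with h | h
        · exact Or.inl h
        · exact Or.inr ⟨h.2.1, h.2.2⟩
      · rw [hm]
        linarith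
    refine (gen_dim (k := k) d w).both (gen_dim (k := k) (d - e) (fun i => w i - c i))
      fun P hP hP' => ?_
    rw [hP, hP']
    have c1 : (gd w d : ℤ) = chi d w := by
      unfold chi
      have h3 : ((∑ i, (w i + 1).choose 2 : ℕ) : ℤ) = ∑ i, ((w i + 1).choose 2 : ℤ) := by
        push_cast; rfl
      omega
    have c2 : (gd (fun i => w i - c i) (d - e) : ℤ) = chi (d - e) (fun i => w i - c i) := by
      have h3 : ((∑ i, (w i - c i + 1).choose 2 : ℕ) : ℤ) =
          ∑ i, ((w i - c i + 1).choose 2 : ℤ) := by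
        push_cast; rfl
      change (gd (fun i => w i - c i) (d - e) : ℤ) =
        ((d - e + 2).choose 2 : ℤ) - ∑ i, ((w i - c i + 1).choose 2 : ℤ)
      rw [← h3]
      omega
    rw [c1, c2, hm]
    ring
  · obtain ⟨β, rfl⟩ : ∃ β, b = β + 2 := ⟨b - 2, by omega⟩
    obtain ⟨α, rfl⟩ : ∃ α, a = α + 2 := ⟨a - 2, by omega⟩
    have e1 : α + 2 + (β + 2) - 2 = α + β + 2 := by omega
    have e2 : α + 2 - 1 = α + 1 := by omega
    have e3 : β + 2 - 1 = β + 1 := by omega
    rw [e1, e2, e3]
    have hch : ∀ x : ℕ, 2 * (x + 1).choose 2 = (x + 1) * x := by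
      intro x
      rw [Nat.choose_two_right, Nat.add_sub_cancel]
      refine Nat.mul_div_cancel' ?_
      rw [mul_comm]
      exact (Nat.even_mul_succ_self x).two_dvd
    have h2 := gd_two α β (by omega)
    have c1 := hch (α + β + 2)
    have c2 := hch (α + 1)
    have c3 := hch (β + 2)
    have c4 := hch (α + β + 3)
    have hX : (α + β + 2 + 2).choose 2 =
        (α + 1) * (β + 1) + (α + 1) + ((α + 1 + 1).choose 2 + (β + 2 + 1).choose 2) := by
      have c4' : 2 * (α + β + 2 + 2).choose 2 = (α + β + 3 + 1) * (α + β + 3) := c4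
      nlinarith
    have hu : Function.update ![α + 1, β + 2] 0 ((![α + 1, β + 2] : Fin 2 → ℕ) 0 + 1) =
        ![α + 2, β + 2] := by
      funext i
      fin_cases i <;> rfl
    have hw : gd ![α + 1, β + 2] (α + β + 2) ≤ (α + 1) * (β + 1) + (α + 1) := by
      have h3 := gd_bd (m := ![α + 1, β + 2]) (d := α + β + 2) (i₀ := 0) (a := α + 2) (b := β + 2)
        (by omega) (by simp) (by
          intro i hi
          fin_cases i
          · exact absurd rfl hi
          · exact le_rfl)
      rw [Fin.sum_univ_two] at h3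
      simp only [Matrix.cons_val_zero, Matrix.cons_val_one] at h3
      rcases h3 with h3 | h3
      · omega
      · have : (α + 2 - 1) * (β + 2 - 1) = (α + 1) * (β + 1) := by rw [e2, e3]
        omega
    refine ⟨?_, (gen_dim (k := k) (α + β + 2) ![α + 1, β + 2]).both
      (gen_dim (k := k) (α + β + 2) ![α + 2, β + 2]) fun P hP hP' => ⟨?_, ?_⟩⟩
    · unfold chi
      rw [Fin.sum_univ_two]
      simp only [Matrix.cons_val_zero, Matrix.cons_val_one]
      have hX' : ((α + β + 2 + 2).choose 2 : ℤ) =
        ((α + 1) * (β + 1) + (α + 1) + ((α + 1 + 1).choose 2 + (β + 2 + 1).choose 2) : ℕ) := by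
        rw [← hX]
      rw [hX']
      push_cast
      ring
    · refine not_surj (P := P) (d := α + β + 2) (w := ![α + 1, β + 2]) (j := 0) ?_
      rw [hu]
      change Module.finrank k (sections P (α + β + 2) ![α + 1, β + 2]) <
        Module.finrank k (sections P (α + β + 2) ![α + 2, β + 2]) + (α + 1 + 1)
      rw [hP, hP', h2]
      omega
    · refine not_inj (P := P) (d := α + β + 2) (w := ![α + 1, β + 2]) (j := 0) ?_
      rw [hu]
      change 1 ≤ Module.finrank k (sections P (α + β + 2) ![α + 2, β + 2])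
      rw [hP', h2]
      exact Nat.succ_le_of_lt (Nat.mul_pos (by omega) (by omega))

end Pool.Agent.Results.MP_5bb273_ag.LargeSystems
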